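import Pool.Agent.Q113.XM.Stm

/-!
Project XM of helper113, job XM-PMN.
-/

set_option autoImplicit false

namespace Pool.Agent.Q176.XM

open Finset Pool.Agent.W890.SF Pool.Agent.W593.IR Pool.Agent.Q54.EM Pool.Agent.Q113.XM

/-- degrees in the transported hypergraph -/
theorem deg_ge {n N : ℕ} (k : ℕ) (φ : Fin N ↪ Fin n) (T : Finset (Fin n))
    (hT : (univ : Finset (Fin N)).map φ = T) (F : Finset (Finset (Fin n))) (v : Fin N) :
    (N - 1).choose (k - 1) ≤
      dg ((univ : Finset (Finset (Fin N))).filter (fun S => S.map φ ∈ F)) v + ms k F T (φ v) := by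
  classical
  obtain ⟨H, hH⟩ : ∃ H, H = (univ : Finset (Finset (Fin N))).filter (fun S => S.map φ ∈ F) := ⟨_, rfl⟩
  rw [← hH]
  have h0 := Finset.card_filter_add_card_filter_not
    (s := ((univ : Finset (Fin N)).erase v).powersetCard (k - 1)) (fun S => insert v S ∈ H)
  have h1 : (((univ : Finset (Fin N)).erase v).powersetCard (k - 1)).card = (N - 1).choose (k - 1) := by
    rw [card_powersetCard, card_erase_of_mem (mem_univ v), card_univ, Fintype.card_fin]
  have h2 : ((((univ : Finset (Fin N)).erase v).powersetCard (k - 1)).filter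
      (fun S => insert v S ∈ H)).card ≤ dg H v := by
    unfold dg
    refine Finset.card_le_card_of_injOn (fun S => insert v S) ?_ ?_
    · intro S hS
      have hS' := mem_filter.1 (mem_coe.1 hS)
      exact mem_coe.2 (mem_filter.2 ⟨hS'.2, mem_insert_self v S⟩)
    · intro S hS S' hS' hE
      have h3 := (mem_powersetCard.1 (mem_filter.1 (mem_coe.1 hS)).1).1
      have h4 := (mem_powersetCard.1 (mem_filter.1 (mem_coe.1 hS')).1).1
      have h5 : v ∉ S := fun h => notMem_erase v _ (h3 h)
      have h6 : v ∉ S' := fun h => notMem_erase v _ (h4 h)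
      have h7 : (insert v S).erase v = (insert v S').erase v := by
        show (insert v S).erase v = _
        rw [show insert v S = insert v S' from hE]
      rwa [erase_insert h5, erase_insert h6] at h7
  have h3 : ((((univ : Finset (Fin N)).erase v).powersetCard (k - 1)).filter
      (fun S => ¬ insert v S ∈ H)).card ≤ ms k F T (φ v) := by
    unfold ms
    refine Finset.card_le_card_of_injOn (fun S => S.map φ) ?_ ?_
    · intro S hS
      have hS' := mem_filter.1 (mem_coe.1 hS)
      have hS'' := mem_powersetCard.1 hS'.1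
      refine mem_coe.2 (mem_filter.2 ⟨mem_powersetCard.2 ⟨?_, ?_⟩, ?_⟩)
      · intro x hx
        obtain ⟨y, hy, rfl⟩ := mem_map.1 hx
        refine mem_erase.2 ⟨?_, ?_⟩
        · intro hxy
          have : y = v := φ.injective hxy
          exact (mem_erase.1 (hS''.1 hy)).1 this
        · rw [← hT]
          exact mem_map_of_mem φ (mem_univ y)
      · rw [card_map]
        exact hS''.2
      · intro hmem
        refine hS'.2 ?_
        rw [hH]
        refine mem_filter.2 ⟨mem_univ _, ?_⟩
        rw [map_insert]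
        exact hmem
    · intro S _ S' _ hE
      exact Finset.map_injective φ hE
  omega

/-- **XM-PMN** -/
theorem t_PMN : S_PMU → S_PMN := by
  classical
  intro hPMU k hk c hc
  obtain ⟨N0, hN0⟩ := hPMU k hk
  have hk0 : (0 : ℝ) < k := by
    have : 0 < k := by omega
    exact_mod_cast this
  refine ⟨(c / k) ^ (k - 1) / (2 * ((k - 1).factorial : ℝ)), by positivity, ⌈(N0 : ℝ) / c⌉₊ + 1, ?_⟩
  intro n hn F hF T q hTq hcT hms
  have hn1 : 1 ≤ n := by omega
  have hnR : (0 : ℝ) < n := by exact_mod_cast hn1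
  have hN : N0 ≤ k * q := by
    have h1 : (N0 : ℝ) / c ≤ n := by
      have h2 : (⌈(N0 : ℝ) / c⌉₊ : ℝ) ≤ n := by
        have : ⌈(N0 : ℝ) / c⌉₊ ≤ n := by omega
        exact_mod_cast this
      exact (Nat.le_ceil _).trans h2
    have h3 : (N0 : ℝ) ≤ c * n := by
      rw [div_le_iff₀ hc] at h1
      linarith
    have h4 : (N0 : ℝ) ≤ ((k * q : ℕ) : ℝ) := by
      rw [← hTq]
      exact h3.trans hcT
    exact_mod_cast h4
  have hqR : c * n ≤ (k : ℝ) * q := by
    have h5 := hcT
    rw [hTq] at h5
    push_cast at h5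
    exact h5
  have hq : 1 ≤ q := by
    by_contra h
    have h0 : q = 0 := by omega
    rw [h0] at hqR
    have : 0 < c * n := by positivity
    simp at hqR
    linarith
  obtain ⟨φ, hφ⟩ : ∃ φ : Fin (k * q) ↪ Fin n, φ = (T.orderEmbOfFin hTq).toEmbedding := ⟨_, rfl⟩
  have hT : (univ : Finset (Fin (k * q))).map φ = T := by
    rw [hφ]
    exact Finset.map_orderEmbOfFin_univ T hTq
  have hmem : ∀ v, φ v ∈ T := fun v => by
    have := mem_map_of_mem φ (mem_univ v)
    rwa [hT] at this
  have hqk : k * q / k = q := Nat.mul_div_cancel_left q (by omega)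
  have hU : Unif k ((univ : Finset (Finset (Fin (k * q)))).filter (fun S => S.map φ ∈ F)) := by
    intro e he
    have := hF _ (mem_filter.1 he).2
    rwa [card_map] at this
  have hdeg : ∀ v, (k * q - 1).choose (k - 1) - (k * q - k * q / k).choose (k - 1) <
      dg ((univ : Finset (Finset (Fin (k * q)))).filter (fun S => S.map φ ∈ F)) v := by
    intro v
    have h1 := deg_ge k φ T hT F v
    have h2 := hms (φ v) (hmem v)
    rw [hqk]
    have h3 : k * q - q = (k - 1) * q := by
      rw [Nat.sub_mul, one_mul]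
    have h4 : (k * q - q).choose (k - 1) ≤ (k * q - 1).choose (k - 1) :=
      Nat.choose_le_choose _ (by omega)
    have h5 : ms k F T (φ v) < (k * q - q).choose (k - 1) := by
      rw [h3]
      have h6 := Nat.pow_le_choose (α := ℝ) (k - 1) ((k - 1) * q)
      have h7 : q ≤ (k - 1) * q + 1 - (k - 1) := by
        obtain ⟨j, hj⟩ : ∃ j, k = j + 2 := ⟨k - 2, by omega⟩
        obtain ⟨i, hi⟩ : ∃ i, q = i + 1 := ⟨q - 1, by omega⟩
        rw [hj, hi]
        have e1 : j + 2 - 1 = j + 1 := by omega
        rw [e1]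
        have e2 : (j + 1) * (i + 1) + 1 - (j + 1) = (j + 1) * i + 1 := by
          have : (j + 1) * (i + 1) = (j + 1) * i + (j + 1) := by ring
          omega
        rw [e2]
        have : i ≤ (j + 1) * i := Nat.le_mul_of_pos_left i (by omega)
        omega
      have h8 : ((q : ℕ) : ℝ) ^ (k - 1) / ((k - 1).factorial : ℝ) ≤
          (((k - 1) * q).choose (k - 1) : ℝ) := by
        refine le_trans ?_ h6
        have : (q : ℝ) ≤ (((k - 1) * q + 1 - (k - 1) : ℕ) : ℝ) := by exact_mod_cast h7
        gcongr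
      have h9 : (c / k * n) ^ (k - 1) ≤ (q : ℝ) ^ (k - 1) := by
        have : c / k * n ≤ q := by
          rw [div_mul_eq_mul_div, div_le_iff₀ hk0]
          linarith
        gcongr
      have hfac : (0 : ℝ) < ((k - 1).factorial : ℝ) := by positivity
      have h10 : (c / k) ^ (k - 1) / (2 * ((k - 1).factorial : ℝ)) * (n : ℝ) ^ (k - 1) <
          (c / k * n) ^ (k - 1) / ((k - 1).factorial : ℝ) := by
        rw [mul_pow, div_mul_eq_mul_div]
        have hp : 0 < (c / k) ^ (k - 1) * (n : ℝ) ^ (k - 1) := by positivity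
        rw [div_lt_div_iff₀ (by positivity) hfac]
        nlinarith [mul_pos hp hfac]
      have h11 : (ms k F T (φ v) : ℝ) < (((k - 1) * q).choose (k - 1) : ℝ) :=
        (h2.trans_lt h10).trans_le ((div_le_div_of_nonneg_right h9 hfac.le).trans h8)
      exact_mod_cast h11
    omega
  obtain ⟨M, hM, hMm, hMc⟩ := hN0 (k * q) hN (Dvd.intro q rfl) _ hU hdeg
  refine ⟨M.map ⟨fun S => S.map φ, Finset.map_injective φ⟩, ?_, ?_, ?_, ?_⟩
  · intro e he
    obtain ⟨S, hS, rfl⟩ := mem_map.1 he
    exact (mem_filter.1 (hM hS)).2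
  · intro e he e' he' hne
    obtain ⟨S, hS, rfl⟩ := mem_map.1 he
    obtain ⟨S', hS', rfl⟩ := mem_map.1 he'
    have hne' : S ≠ S' := fun h => hne (by rw [h])
    exact (disjoint_map φ).2 (hMm S hS S' hS' hne')
  · rw [card_map, hMc, hqk]
  · intro e he x hx
    obtain ⟨S, hS, rfl⟩ := mem_map.1 he
    obtain ⟨y, -, rfl⟩ := mem_map.1 hx
    exact hmem y

end Pool.Agent.Q176.XM
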